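import Pool.Agent.Helper76.CY.Lin

/-!
# CY-12: the residual plane lies in the cubic
-/

namespace Pool.Agent.Helper21.CY

open MvPolynomial Pool.Agent.Helper76.CY

theorem plane_vanish {K R : Type*} [Field K] [CommRing R] [Algebra K R] (D : Ten K)
    (h12 : ∀ i j k, D i j k = D j i k) (h23 : ∀ i j k, D i j k = D i k j)
    (u : Fin 3 → Fin 10 → R) (n : Fin 10 → R) (hu : ∀ i j k, tri D (u i) (u j) (u k) = 0)
    (hn : ∀ i j, tri D n (u i) (u j) = 0) (κ1 κ2 κ3 : R)
    (h1 : κ1 * tri D (u 0) n n = tri D (u 1) n n)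
    (h2 : κ2 * tri D (u 0) n n = tri D (u 2) n n)
    (h3 : 3 * (κ3 * tri D (u 0) n n) = tri D n n n) (w : Fin 3 → Fin 10 → R)
    (hw : w = ![u 1 - κ1 • u 0, u 2 - κ2 • u 0, n - κ3 • u 0]) (i j k : Fin 3) :
    tri D (w i) (w j) (w k) = 0 := by
  have hn2 : ∀ i j, tri D (u i) n (u j) = 0 := fun i j => by
    rw [tri_swap12 h12]; exact hn i j
  have hn3 : ∀ i j, tri D (u i) (u j) n = 0 := fun i j => by
    rw [tri_swap23 h23]; exact hn2 i j
  have hm2 : ∀ i, tri D n (u i) n = tri D (u i) n n := fun i => tri_swap12 h12 _ _ _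
  have hm3 : ∀ i, tri D n n (u i) = tri D (u i) n n := fun i => by
    rw [tri_swap23 h23]; exact hm2 i
  have w0 : w 0 = u 1 - κ1 • u 0 := by rw [hw]; rfl
  have w1 : w 1 = u 2 - κ2 • u 0 := by rw [hw]; rfl
  have w2 : w 2 = n - κ3 • u 0 := by rw [hw]; rfl
  have key : ∀ i j k : Fin 3, w i = w i → tri D (w i) (w j) (w k) = 0 := by
    intro i j k _
    fin_cases i <;> fin_cases j <;> fin_cases k <;>
      simp only [Fin.zero_eta, Fin.mk_one, Fin.reduceFinMk, w0, w1, w2, tri_sub_left, tri_sub_mid,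
        tri_sub_right, tri_smul_left, tri_smul_mid, tri_smul_right, hu, hn, hn2, hn3, hm2, hm3] <;>
      first
      | ring1
      | linear_combination (-1 : R) * h1
      | linear_combination (-1 : R) * h2
      | linear_combination (-1 : R) * h3
  exact key i j k rfl

theorem plane_comb {K R : Type*} [Field K] [CommRing R] [Algebra K R] (D : Ten K)
    (w : Fin 3 → Fin 10 → R) (hw : ∀ i j k, tri D (w i) (w j) (w k) = 0)
    (M : Fin 3 → Fin 3 → R) (i j k : Fin 3) :
    tri D (∑ l, M i l • w l) (∑ l, M j l • w l) (∑ l, M k l • w l) = 0 := by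
  simp only [Fin.sum_univ_three, tri_add_left, tri_add_mid, tri_add_right, tri_smul_left,
    tri_smul_mid, tri_smul_right, hw, mul_zero, add_zero]

end Pool.Agent.Helper21.CY
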