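import Pool.Agent.Helper76.CY.Lin

/-!
# CY-8: a linear section of `m ↦ D(m, e_i, e_j)`
-/

namespace Pool.Agent.Helper21.CY

open MvPolynomial Pool.Agent.Helper76.CY

/-- the first entry of the `s`-th pair -/
def pa : Fin 6 → Fin 3 := ![0, 0, 0, 1, 1, 2]

/-- the second entry of the `s`-th pair -/
def pb : Fin 6 → Fin 3 := ![0, 1, 2, 1, 2, 2]

/-- the vector `(0, 0, 0, 0, v)` -/
def ext {K : Type*} [Field K] : (Fin 6 → K) →ₗ[K] (Fin 10 → K) where
  toFun v j := if h : 4 ≤ (j : ℕ) then v ⟨(j : ℕ) - 4, by omega⟩ else 0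
  map_add' v w := by
    funext j
    simp only [Pi.add_apply]
    split_ifs <;> simp
  map_smul' c v := by
    funext j
    simp only [Pi.smul_apply, RingHom.id_apply]
    split_ifs <;> simp

theorem ext_apply {K : Type*} [Field K] (v : Fin 6 → K) (j : Fin 10) :
    ext v j = if h : 4 ≤ (j : ℕ) then v ⟨(j : ℕ) - 4, by omega⟩ else 0 := rfl

theorem exists_section {K : Type*} [Field K] (D : Ten K) (hD : Window D) :
    ∃ N : (Fin 3 → Fin 3 → K) →ₗ[K] (Fin 10 → K),
      (∀ q, N q 0 = 0 ∧ N q 1 = 0 ∧ N q 2 = 0 ∧ N q 3 = 0) ∧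
      ∀ q, (∀ i j, q i j = q j i) →
        ∀ i j, tri D (N q) (bv K (c3 i)) (bv K (c3 j)) = q i j := by
  have hext : ∀ v : Fin 6 → K, ext v 0 = 0 ∧ ext v 1 = 0 ∧ ext v 2 = 0 ∧ ext v 3 = 0 := by
    intro v
    refine ⟨?_, ?_, ?_, ?_⟩ <;> rw [ext_apply, dif_neg (by decide)]
  let A : (Fin 6 → K) →ₗ[K] (Fin 6 → K) :=
    { toFun := fun v s => tri D (ext v) (bv K (c3 (pa s))) (bv K (c3 (pb s)))
      map_add' := by
        intro v w
        funext s
        rw [map_add, tri_add_left]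
        rfl
      map_smul' := by
        intro c v
        funext s
        rw [map_smul, tri_smul_left]
        rfl }
  have hA : ∀ v s, A v s = tri D (ext v) (bv K (c3 (pa s))) (bv K (c3 (pb s))) := fun v s => rfl
  have hsymm : ∀ (x : Fin 10 → K) (i j : Fin 3), tri D x (bv K (c3 i)) (bv K (c3 j)) =
      tri D x (bv K (c3 j)) (bv K (c3 i)) := fun x i j => tri_swap23 hD.swap23 _ _ _
  have hall : ∀ (x : Fin 10 → K) (q : Fin 3 → Fin 3 → K), (∀ i j, q i j = q j i) →
      (∀ s, tri D x (bv K (c3 (pa s))) (bv K (c3 (pb s))) = q (pa s) (pb s)) →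
      ∀ i j, tri D x (bv K (c3 i)) (bv K (c3 j)) = q i j := by
    intro x q hq h i j
    fin_cases i <;> fin_cases j
    · exact h 0
    · exact h 1
    · exact h 2
    · exact (hsymm _ _ _).trans ((h 1).trans (hq _ _))
    · exact h 3
    · exact h 4
    · exact (hsymm _ _ _).trans ((h 2).trans (hq _ _))
    · exact (hsymm _ _ _).trans ((h 4).trans (hq _ _))
    · exact h 5
  have hinj : Function.Injective A := by
    rw [injective_iff_map_eq_zero]
    intro v hv
    have h1 : ext v = 0 := by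
      obtain ⟨e0, e1, e2, e3⟩ := hext v
      refine hD.nondeg _ e0 e1 e2 e3 ?_
      refine hall (ext v) (fun _ _ => 0) (fun _ _ => rfl) fun s => ?_
      rw [← hA, hv]
      rfl
    funext s
    have h2 : ext v ⟨(s : ℕ) + 4, by omega⟩ = v s := by
      have h3 : 4 ≤ ((⟨(s : ℕ) + 4, by omega⟩ : Fin 10) : ℕ) := by simp
      rw [ext_apply, dif_pos h3]
      congr 1
    rw [← h2, h1]
    rfl
  have hsurj : Function.Surjective A := LinearMap.injective_iff_surjective.1 hinj
  let e : (Fin 6 → K) ≃ₗ[K] (Fin 6 → K) := LinearEquiv.ofBijective A ⟨hinj, hsurj⟩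
  let r : (Fin 3 → Fin 3 → K) →ₗ[K] (Fin 6 → K) :=
    { toFun := fun q s => q (pa s) (pb s)
      map_add' := fun q q' => rfl
      map_smul' := fun c q => rfl }
  refine ⟨LinearMap.comp ext (LinearMap.comp e.symm.toLinearMap r), fun q => hext (e.symm (r q)),
    fun q hq => ?_⟩
  refine hall _ q hq fun s => ?_
  have h1 : A (e.symm (r q)) = r q := LinearEquiv.apply_symm_apply e (r q)
  have h2 := congrFun h1 s
  exact h2

end Pool.Agent.Helper21.CY
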